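import Pool.Agent.H64.BTL.Stmts

set_option autoImplicit false

namespace Pool.BTL

theorem INT_thm : INTStmt := by
  intro k₀ k _ _ _ n M hM
  let R := integralClosure k₀ k
  let M' : Matrix (Fin n) (Fin n) R := fun i j => ⟨M i j, hM i j⟩
  have h1 : IsIntegral R M' := Matrix.isIntegral M'
  have h2 : IsIntegral k₀ M' := isIntegral_trans M' h1
  have h3 : (Subalgebra.val R).mapMatrix M' = M := by
    ext i j
    rfl
  rw [← h3]
  exact h2.map _

end Pool.BTL
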